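import Pool.Agent.Q5.SG.Stm

/-!
# Project SG (helper5), JOB TR: from `H` to the layer `E`

Owner helper182.
-/

set_option autoImplicit false
set_option linter.unusedSectionVars false

namespace Pool.Agent.Q182.SG

open NumberField Module Pool.Agent.Y18.LC Pool.Agent.Q5.SG

section grp

/-- the product over the powers of an element depends only on the subgroup -/
theorem prod_pow_eq {G M : Type} [Group G] [Finite G] [CommMonoid M] (f : G → M) {a b : G} {p : ℕ}
    (ha : orderOf a = p) (hb : orderOf b = p) (h : Subgroup.zpowers a = Subgroup.zpowers b) :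
    ∏ i ∈ Finset.range p, f (a ^ i) = ∏ i ∈ Finset.range p, f (b ^ i) := by
  classical
  have key : ∀ c : G, orderOf c = p → ∏ i ∈ Finset.range p, f (c ^ i) =
      ∏ x ∈ (Finset.range (orderOf c)).image (fun i => c ^ i), f x := by
    intro c hc
    rw [Finset.prod_image, hc]
    intro i hi j hj hij
    have hi' : i < orderOf c := Finset.mem_range.1 hi
    have hj' : j < orderOf c := Finset.mem_range.1 hj
    exact pow_injOn_Iio_orderOf hi' hj' hij
  rw [key a ha, key b hb]
  congr 1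
  ext x
  rw [← mem_zpowers_iff_mem_range_orderOf, ← mem_zpowers_iff_mem_range_orderOf, h]

/-- subgroups of a cyclic group of order `p ^ m` -/
theorem sub_eq {G : Type} [Group G] [Finite G] {g : G} (hg : ∀ h : G, h ∈ Subgroup.zpowers g)
    {p m j : ℕ} (hp : p.Prime) (hc : Nat.card G = p ^ m) (hj : j ≤ m) (N : Subgroup G)
    (hN : Nat.card N = p ^ (m - j)) : N.Normal ∧ N = Subgroup.zpowers (g ^ p ^ j) := by
  have hcomm : ∀ a b : G, a * b = b * a := by
    intro a b
    obtain ⟨i, rfl⟩ := hg a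
    obtain ⟨k, rfl⟩ := hg b
    show g ^ i * g ^ k = g ^ k * g ^ i
    rw [← zpow_add, ← zpow_add, add_comm]
  have hn : N.Normal := ⟨fun n hn h => by rw [hcomm h n, mul_inv_cancel_right]; exact hn⟩
  refine ⟨hn, ?_⟩
  have hp0 : 0 < p := hp.pos
  have hidx : N.index = p ^ j := by
    have h1 := N.card_mul_index
    rw [hN, hc] at h1
    have h2 : p ^ m = p ^ (m - j) * p ^ j := by rw [← pow_add]; congr 1; omega
    rw [h2] at h1
    exact Nat.eq_of_mul_eq_mul_left (by positivity) h1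
  have hmem : g ^ p ^ j ∈ N := by
    rw [← hidx]
    exact N.pow_index_mem g
  have hle : Subgroup.zpowers (g ^ p ^ j) ≤ N := by
    rw [Subgroup.zpowers_le]
    exact hmem
  have hord : orderOf g = p ^ m := by
    rw [← hc]
    exact orderOf_eq_card_of_forall_mem_zpowers hg
  symm
  apply Subgroup.eq_of_le_of_card_ge hle
  rw [hN, Nat.card_zpowers, orderOf_pow_of_dvd (by positivity) (by rw [hord]; exact pow_dvd_pow p hj),
    hord, Nat.pow_div hj hp0]

/-- an element of order `p` of a cyclic group of order `p ^ j` -/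
theorem zp_eq {G : Type} [Group G] [Finite G] {g : G} (hg : ∀ h : G, h ∈ Subgroup.zpowers g)
    {p j : ℕ} (hp : p.Prime) (hc : Nat.card G = p ^ j) (hj : 1 ≤ j) {τ : G} (hτ : orderOf τ = p) :
    orderOf (g ^ p ^ (j - 1)) = p ∧ Subgroup.zpowers τ = Subgroup.zpowers (g ^ p ^ (j - 1)) := by
  have hp0 : 0 < p := hp.pos
  have hord : orderOf g = p ^ j := by
    rw [← hc]
    exact orderOf_eq_card_of_forall_mem_zpowers hg
  have h1 : orderOf (g ^ p ^ (j - 1)) = p := by
    rw [orderOf_pow_of_dvd (by positivity) (by rw [hord]; exact pow_dvd_pow p (by omega)), hord,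
      Nat.pow_div (by omega) hp0]
    have : j - (j - 1) = 1 := by omega
    rw [this, pow_one]
  refine ⟨h1, ?_⟩
  apply Subgroup.eq_of_le_of_card_ge
  · rw [Subgroup.zpowers_le]
    obtain ⟨a, rfl⟩ := hg τ
    have h2 : g ^ (a * p) = 1 := by
      rw [zpow_mul, zpow_natCast]
      have : (g ^ a) ^ orderOf (g ^ a) = 1 := pow_orderOf_eq_one _
      rwa [show orderOf (g ^ a) = p from hτ] at this
    have h3 : ((p ^ j : ℕ) : ℤ) ∣ a * p := by
      rw [← hord]
      exact orderOf_dvd_iff_zpow_eq_one.2 h2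
    have h4 : ((p ^ (j - 1) : ℕ) : ℤ) ∣ a := by
      have h5 : ((p ^ j : ℕ) : ℤ) = ((p ^ (j - 1) : ℕ) : ℤ) * p := by
        rw [← Nat.cast_mul, ← pow_succ]
        congr 2
        omega
      rw [h5] at h3
      exact Int.dvd_of_mul_dvd_mul_right (by exact_mod_cast hp0.ne') h3
    obtain ⟨c, hc'⟩ := h4
    refine ⟨c, ?_⟩
    show (g ^ p ^ (j - 1)) ^ c = g ^ a
    rw [hc', zpow_mul, zpow_natCast]
  · rw [Nat.card_zpowers, Nat.card_zpowers, h1, hτ]

end grp

/-- the main step, for a field `E` of degree `p ^ j` with the restriction `h` of `g` -/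
theorem main_step (hEX : S_EX) (hGI : S_GI) {p : ℕ} [Fact p.Prime] (hp2 : p ≠ 2) {K E H : Type}
    [Field K] [NumberField K] [Field E] [NumberField E] [Field H] [NumberField H] [Algebra K E]
    [Algebra E H] [Algebra K H] [IsScalarTower K E H] [Finite (E ≃ₐ[K] E)] (hun : Unram H p)
    {S : Set (K →+* ℂ_[p])} {g : H ≃ₐ[K] H} {r : E ≃ₐ[K] E}
    (hcomp : ∀ (k : ℕ) (x : E), algebraMap E H ((r ^ k) x) = (g ^ k) (algebraMap E H x)) {n j : ℕ}
    (hfix : ∀ x : E, (g ^ p ^ j) (algebraMap E H x) = algebraMap E H x)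
    (hmem : ∀ x : H, (g ^ p ^ j) x = x → ∃ y : E, algebraMap E H y = x) (hbad : ¬ Bad S g n j)
    {τ : E ≃ₐ[K] E} (hτ : orderOf τ = p) (ho : orderOf (r ^ p ^ (j - 1)) = p)
    (hz : Subgroup.zpowers τ = Subgroup.zpowers (r ^ p ^ (j - 1))) : TopRel S τ := by
  intro s
  refine ⟨n + 1 + s, ?_⟩
  intro u hu hprod
  set φ : Eˣ →* Hˣ := Units.map (algebraMap E H).toMonoidHom with hφ
  have hφc : ∀ v : Eˣ, ((φ v : Hˣ) : H) = algebraMap E H (v : E) := fun v => rfl
  have hφi : Function.Injective φ := Units.map_injective (algebraMap E H).injective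
  have hcompat : ∀ (k : ℕ) (v : Eˣ), g ^ k • φ v = φ (r ^ k • v) := by
    intro k v
    apply Units.ext
    rw [coe_smul', hφc, hφc, coe_smul']
    exact (hcomp k (v : E)).symm
  have hEUφ : ∀ v : Eˣ, v ∈ EU E ↔ φ v ∈ EU H := by
    intro v
    rw [mem_EU_iff, mem_EU_iff, hφc, ← map_inv, hφc,
      isIntegral_algebraMap_iff (algebraMap E H).injective,
      isIntegral_algebraMap_iff (algebraMap E H).injective]
  have hz1 : φ u ∈ CU S H (n + 1 + s) := by
    rw [mem_CU] at hu ⊢
    exact ⟨(hEUφ u).1 hu.1, (hEX p K E H S (n + 1 + s) (u : E)).2 hu.2⟩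
  have hz2 : g ^ p ^ j • φ u = φ u := by
    apply Units.ext
    rw [coe_smul', hφc]
    exact hfix _
  have hz3 : ∏ i ∈ Finset.range p, g ^ (i * p ^ (j - 1)) • φ u = 1 := by
    have h1 : ∀ i ∈ Finset.range p, g ^ (i * p ^ (j - 1)) • φ u =
        φ ((r ^ p ^ (j - 1)) ^ i • u) := by
      intro i _
      rw [hcompat, ← pow_mul, mul_comm]
    rw [Finset.prod_congr rfl h1, ← map_prod]
    have h2 := prod_pow_eq (fun σ : E ≃ₐ[K] E => σ • u) hτ ho hz
    rw [← h2, hprod, map_one]
  obtain ⟨w, hw1, hw2, hw3⟩ := hGI p hp2 K H hun S g n j hbad s (φ u) hz1 hz2 hz3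
  obtain ⟨y, hy⟩ := hmem (w : H) (by
    have := congrArg (fun t : Hˣ => (t : H)) hw3
    simpa [coe_smul'] using this)
  have hy0 : y ≠ 0 := by
    rintro rfl
    rw [map_zero] at hy
    exact w.ne_zero hy.symm
  obtain ⟨w', hw'⟩ : ∃ w' : Eˣ, φ w' = w := ⟨Units.mk0 y hy0, Units.ext hy⟩
  have hw'E : w' ∈ EU E := by
    rw [hEUφ, hw']
    exact hw1.1
  refine ⟨w' ^ p, pow_mem hw'E _, ?_⟩
  apply hφi
  rw [map_pow, map_pow, hw', ← hw2, ← pow_mul, pow_succ, mul_comm]

theorem t_TR : J_TR := by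
  intro hEX hGI p _ hp2 K H _ _ _ _ _ _ hun S g hg m n j hfin hj1 hjm hbad E hE τ hτ
  have hp : p.Prime := Fact.out
  have hcard : Nat.card (H ≃ₐ[K] H) = p ^ m := by
    rw [← hfin]
    exact IsGalois.card_aut_eq_finrank K H
  have : Finite (H ≃ₐ[K] H) := Nat.finite_of_card_ne_zero (by rw [hcard]; exact pow_ne_zero _ hp.ne_zero)
  have hfE : finrank E H = p ^ (m - j) := by
    have h1 := Module.finrank_mul_finrank K E H
    rw [hE, hfin] at h1
    have h2 : p ^ m = p ^ j * p ^ (m - j) := by rw [← pow_add]; congr 1; omega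
    rw [h2] at h1
    exact Nat.eq_of_mul_eq_mul_left (pow_pos hp.pos _) h1
  have hN : Nat.card E.fixingSubgroup = p ^ (m - j) := by
    rw [← hfE]
    exact IsGalois.card_fixingSubgroup_eq_finrank E
  obtain ⟨hnorm, hNz⟩ := sub_eq hg hp hcard hjm E.fixingSubgroup hN
  have hgE : g ^ p ^ j ∈ E.fixingSubgroup := by
    rw [hNz]
    exact Subgroup.mem_zpowers _
  have hfixE : ∀ x : H, (g ^ p ^ j) x = x → x ∈ E := by
    intro x hx
    rw [← IsGalois.fixedField_fixingSubgroup E, hNz]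
    rw [IntermediateField.mem_fixedField_iff]
    intro σ hσ
    have h1 : g ^ p ^ j ∈ MulAction.stabilizer (H ≃ₐ[K] H) x := hx
    exact (Subgroup.zpowers_le.2 h1) hσ
  have hGE : IsGalois K E := by
    have := IsGalois.of_fixedField_normal_subgroup (K := K) (L := H) E.fixingSubgroup
    rwa [IsGalois.fixedField_fixingSubgroup] at this
  -- the restriction of `g`
  set r := AlgEquiv.restrictNormalHom (F := K) (K₁ := H) E with hr
  have hrs : Function.Surjective r := AlgEquiv.restrictNormalHom_surjective H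
  have hcE : Nat.card (E ≃ₐ[K] E) = p ^ j := by
    rw [← hE]
    exact IsGalois.card_aut_eq_finrank K E
  have : Finite (E ≃ₐ[K] E) := Nat.finite_of_card_ne_zero (by rw [hcE]; exact pow_ne_zero _ hp.ne_zero)
  have hrg : ∀ h : E ≃ₐ[K] E, h ∈ Subgroup.zpowers (r g) := by
    intro h
    obtain ⟨h', rfl⟩ := hrs h
    obtain ⟨a, ha⟩ := hg h'
    refine ⟨a, ?_⟩
    show (r g) ^ a = r h'
    rw [← ha, map_zpow]
  obtain ⟨ho, hz⟩ := zp_eq hrg hp hcE hj1 hτ
  refine main_step hEX hGI hp2 hun (g := g) (r := r g) ?_ (n := n) (j := j) ?_ ?_ hbad hτ ho hz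
  · intro k x
    rw [← map_pow]
    exact AlgEquiv.restrictNormal_commutes (g ^ k) E x
  · intro x
    exact (IntermediateField.mem_fixingSubgroup_iff E _).1 hgE _ x.2
  · intro x hx
    exact ⟨⟨x, hfixE x hx⟩, rfl⟩

end Pool.Agent.Q182.SG
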